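import Pool.Agent.Helper68.DS.Goals

/-!
# Packet LEV0 (helper68, DS): the pure part of the new object
-/

set_option autoImplicit false

namespace Pool.Agent.Helper69.DS

open Pool.Agent.Helper68.DS MvPolynomial

/-- The forms `∏_{l ≠ a} (x_2 - κ_l x_3)` span the forms `x_2^i x_3^{k-1-i}`. -/
theorem monomial_mem_span {k : ℕ} (κ : Fin k → ℂ) (hκ : Function.Injective κ) (i : ℕ)
    (hi : i ≤ k - 1) (hk : 1 ≤ k) :
    (X 2 : MvPolynomial (Fin 4) ℂ) ^ i * X 3 ^ (k - 1 - i) ∈ Submodule.span ℂ (Set.range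
      fun a : Fin k => ∏ l ∈ Finset.univ.erase a, (X 2 - C (κ l) * X 3)) := by
  classical
  let A : MvPolynomial (Fin 2) ℂ →ₐ[ℂ] MvPolynomial (Fin 4) ℂ := aeval ![X 2, X 3]
  have h0 : A ((Polynomial.X ^ i : Polynomial ℂ).homogenize (k - 1)) =
      (X 2 : MvPolynomial (Fin 4) ℂ) ^ i * X 3 ^ (k - 1 - i) := by
    rw [Polynomial.homogenize_X_pow hi]
    simp [A]
  rw [← h0]
  have h1 : (Polynomial.X ^ i : Polynomial ℂ) =
      Lagrange.interpolate Finset.univ κ fun a => κ a ^ i := by
    apply Lagrange.eq_interpolate_of_eval_eq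
    · exact hκ.injOn
    · rw [Polynomial.degree_X_pow, Finset.card_univ, Fintype.card_fin]
      exact_mod_cast (by omega : i < k)
    · intro a _
      simp
  rw [h1, Lagrange.interpolate_apply, Polynomial.homogenize_finsetSum, map_sum]
  refine Submodule.sum_mem _ fun a _ => ?_
  rw [Polynomial.homogenize_C_mul]
  have h2 : (Lagrange.basis Finset.univ κ a).homogenize (k - 1) =
      ∏ l ∈ Finset.univ.erase a, (C (κ a - κ l)⁻¹ * (X 0 - C (κ l) * X 1)) := by
    have hn : k - 1 = ∑ _l ∈ Finset.univ.erase a, 1 := by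
      rw [Finset.sum_const, smul_eq_mul, mul_one, Finset.card_erase_of_mem (Finset.mem_univ _),
        Finset.card_univ, Fintype.card_fin]
    rw [hn]
    unfold Lagrange.basis
    rw [Polynomial.homogenize_finsetProd]
    · refine Finset.prod_congr rfl fun l _ => ?_
      unfold Lagrange.basisDivisor
      rw [Polynomial.homogenize_C_mul, Polynomial.homogenize_sub, Polynomial.homogenize_X one_ne_zero,
        Polynomial.homogenize_C]
      simp
    · intro l _
      unfold Lagrange.basisDivisor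
      exact (Polynomial.natDegree_C_mul_le _ _).trans (Polynomial.natDegree_X_sub_C_le _)
  rw [h2, Finset.prod_mul_distrib]
  have h3 : ∏ l ∈ Finset.univ.erase a, (C ((κ a - κ l)⁻¹) : MvPolynomial (Fin 2) ℂ) =
      C (∏ l ∈ Finset.univ.erase a, (κ a - κ l)⁻¹) := by
    rw [map_prod]
  rw [h3, ← mul_assoc, ← map_mul, map_mul, map_prod]
  have h4 : ∀ c : ℂ, A (C c) = C c := fun c => by
    simp only [A, aeval_C, algebraMap_eq]
  have h5 : ∀ l, A (X 0 - C (κ l) * X 1) = X 2 - C (κ l) * X 3 := fun l => by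
    rw [map_sub, map_mul, h4]
    simp [A]
  rw [h4, Finset.prod_congr rfl fun l _ => h5 l, ← MvPolynomial.smul_eq_C_mul]
  exact Submodule.smul_mem _ _ (Submodule.subset_span ⟨a, rfl⟩)

theorem LEV0 : LEV0_stmt := by
  classical
  intro k hk κ hκ u v j hj
  have key : ∀ (m : Fin 4) (f : MvPolynomial (Fin 4) ℂ), f ∈ Submodule.span ℂ (Set.range
      fun a : Fin k => ∏ l ∈ Finset.univ.erase a, (X 2 - C (κ l) * X 3)) →
      X m * f ∈ E0 (fun l => X 2 - C (κ l) * X 3) u v := by
    intro m f hf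
    have h1 : (Submodule.span ℂ (Set.range
        fun a : Fin k => ∏ l ∈ Finset.univ.erase a, (X 2 - C (κ l) * X 3))).map
          (LinearMap.mulLeft ℂ (X m : MvPolynomial (Fin 4) ℂ)) ≤
        E0 (fun l => X 2 - C (κ l) * X 3) u v := by
      rw [Submodule.map_span, Submodule.span_le]
      rintro _ ⟨_, ⟨a, rfl⟩, rfl⟩
      refine Submodule.subset_span ⟨m, a, a, le_refl _, Or.inl ?_⟩
      have h2 : Finset.univ.filter (fun l => l < a ∨ a < l) = Finset.univ.erase a := by
        ext l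
        simp [lt_or_lt_iff_ne]
      simp only [LinearMap.mulLeft_apply, Pw, h2, Finset.Ico_self, Finset.prod_empty, mul_one]
    exact h1 (Submodule.mem_map_of_mem hf)
  rcases Nat.eq_zero_or_pos j with h | h
  · subst h
    have h1 := key 3 _ (monomial_mem_span κ hκ 0 (Nat.zero_le _) hk)
    have e : (X 3 : MvPolynomial (Fin 4) ℂ) * (X 2 ^ 0 * X 3 ^ (k - 1 - 0)) =
        X 2 ^ 0 * X 3 ^ (k - 0) := by
      rw [pow_zero, one_mul, one_mul, ← pow_succ']
      congr 1
      omega
    rwa [e] at h1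
  · have h1 := key 2 _ (monomial_mem_span κ hκ (j - 1) (by omega) hk)
    have e : (X 2 : MvPolynomial (Fin 4) ℂ) * (X 2 ^ (j - 1) * X 3 ^ (k - 1 - (j - 1))) =
        X 2 ^ j * X 3 ^ (k - j) := by
      rw [← mul_assoc, ← pow_succ']
      congr 2 <;> omega
    rwa [e] at h1

end Pool.Agent.Helper69.DS
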