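import Pool.Agent.Helper68.DS.Goals
import Pool.Agent.Helper74.SD.Reduce

/-!
# Packet RED (helper68, DS): reduction to the span condition
-/

set_option autoImplicit false

namespace Pool.Agent.Helper69.DS

open Pool.Agent.Helper68.DS MvPolynomial

/-- A homogeneous polynomial of degree one is the linear form of its coefficients. -/
theorem eq_sum_of_isHomogeneous_one {p : MvPolynomial (Fin 4) ℂ} (hp : p.IsHomogeneous 1) :
    p = ∑ j, C (coeff (Finsupp.single j 1) p) * X j := by
  classical
  ext n
  rw [coeff_sum]
  simp only [coeff_C_mul, coeff_X]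
  by_cases hn : n.degree = 1
  · obtain ⟨j, rfl⟩ : ∃ j, n = Finsupp.single j 1 := by
      have h1 : ∃ j, n j ≠ 0 := by
        by_contra hcon
        push Not at hcon
        have : n = 0 := by
          ext j
          exact hcon j
        rw [this] at hn
        simp at hn
      obtain ⟨j, hj⟩ := h1
      refine ⟨j, ?_⟩
      have h2 : Finsupp.single j 1 ≤ n := by
        rw [Finsupp.single_le_iff]
        omega
      obtain ⟨m, hm⟩ := exists_add_of_le h2
      have h3 : m.degree = 0 := by
        have := congrArg Finsupp.degree hm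
        rw [map_add, hn, Finsupp.degree_single] at this
        omega
      rw [Finsupp.degree_eq_zero_iff] at h3
      rw [hm, h3, add_zero]
    rw [Finset.sum_eq_single j]
    · simp
    · intro j' _ hj'
      rw [if_neg, mul_zero]
      intro h
      apply hj'
      exact (Finsupp.single_left_injective one_ne_zero) h
    · simp
  · rw [hp.coeff_eq_zero hn, Finset.sum_eq_zero]
    intro j _
    rw [if_neg, mul_zero]
    rintro rfl
    exact hn (by rw [Finsupp.degree_single])

theorem RED : RED_stmt := by
  classical
  intro k s hk hD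
  obtain ⟨G, hlin, hspan⟩ := hD
  have hLM : ∀ i, Pool.Agent.Helper74.SD.LM (fun a b j => coeff (Finsupp.single j 1) (G i a b)) =
      G i := by
    intro i
    ext1 a b
    rw [Pool.Agent.Helper74.SD.LM, Matrix.of_apply]
    exact (eq_sum_of_isHomogeneous_one (hlin i a b)).symm
  refine Pool.Agent.Helper74.SD.general_of_spans (I := Fin s) (κ := Fin k) (by simp) (by simp) hk
    (fun i a b j => coeff (Finsupp.single j 1) (G i a b)) ?_
  have e : (fun i => Pool.Agent.Helper74.SD.LM
      (fun a b j => coeff (Finsupp.single j 1) (G i a b))) = G := by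
    funext i
    exact hLM i
  rw [e]
  intro φ hφ n hn
  let ψ : MvPolynomial (Fin 4) ℂ →ₗ[ℂ] ℂ :=
    ∑ n ∈ Pool.Agent.Helper74.SD.Dl k, φ n • (MvPolynomial.lcoeff ℂ n)
  have hψ : ∀ f, ψ f = ∑ n ∈ Pool.Agent.Helper74.SD.Dl k, φ n * coeff n f := by
    intro f
    simp [ψ, LinearMap.sum_apply]
  have hker : (⨆ i, TT (G i)) ≤ LinearMap.ker ψ := by
    refine iSup_le fun i => ?_
    unfold TT
    rw [Submodule.span_le]
    rintro _ ⟨p, rfl⟩
    rw [SetLike.mem_coe, LinearMap.mem_ker, hψ]
    exact hφ i p.2.1 p.2.2 p.1
  have hmem : (monomial n (1 : ℂ)) ∈ HS 4 k := by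
    rw [mem_homogeneousSubmodule]
    exact isHomogeneous_monomial _ (Pool.Agent.Helper74.SD.mem_Dl_degree.1 hn)
  have h1 := hker (hspan hmem)
  rw [LinearMap.mem_ker, hψ, Finset.sum_eq_single n] at h1
  · simpa using h1
  · intro m _ hm
    rw [coeff_monomial, if_neg hm.symm, mul_zero]
  · intro h
    exact absurd hn h

end Pool.Agent.Helper69.DS
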