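import Pool.Agent.Helper68.DS.Goals

/-!
# Packet SC (helper68, DS): semicontinuity of the dimension of a span
-/

set_option autoImplicit false

namespace Pool.Agent.Helper69.DS

open Pool.Agent.Helper68.DS

/-- The dimension of `H ⊔ W` is the dimension of `H` plus the dimension of the image of `W` in the
quotient by `H`. -/
theorem finrank_sup_eq {V : Type} [AddCommGroup V] [Module ℂ V] (H W : Submodule ℂ V)
    [FiniteDimensional ℂ H] [FiniteDimensional ℂ W] :
    Module.finrank ℂ ↥(H ⊔ W) = Module.finrank ℂ ↥(W.map H.mkQ) + Module.finrank ℂ ↥H := by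
  have h := LinearMap.finrank_range_add_finrank_ker (H.mkQ.domRestrict (H ⊔ W))
  rw [← h]
  congr 1
  · have e : (H.mkQ.domRestrict (H ⊔ W)).range = W.map H.mkQ := by
      rw [LinearMap.range_domRestrict, Submodule.map_sup]
      have : H.map H.mkQ = ⊥ := by
        rw [← le_bot_iff, Submodule.map_le_iff_le_comap, Submodule.comap_bot, Submodule.ker_mkQ]
      rw [this, bot_sup_eq]
    rw [e]
  · have e : (H.mkQ.domRestrict (H ⊔ W)).ker = H.comap (H ⊔ W).subtype := by
      rw [LinearMap.ker_domRestrict, Submodule.ker_mkQ]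
    rw [e]
    exact (Submodule.comapSubtypeEquivOfLe (le_sup_left : H ≤ H ⊔ W)).finrank_eq

theorem SC : SC_stmt := by
  classical
  intro V _ _ H _ ι _ F hF t₀
  have : Fintype ι := Fintype.ofFinite ι
  have hfd : ∀ t, FiniteDimensional ℂ ↥(Submodule.span ℂ (Set.range fun a => F a t)) := fun t =>
    FiniteDimensional.span_of_finite ℂ (Set.finite_range _)
  have hmap : ∀ t, (Submodule.span ℂ (Set.range fun a => F a t)).map H.mkQ =
      Submodule.span ℂ (Set.range fun a => H.mkQ (F a t)) := by
    intro t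
    rw [Submodule.map_span, ← Set.range_comp]
    rfl
  obtain ⟨κ, b, hbinj, hbspan, hbli⟩ := exists_linearIndependent' ℂ (fun a => H.mkQ (F a t₀))
  have hκ : Finite κ := Finite.of_injective b hbinj
  have : Fintype κ := Fintype.ofFinite κ
  -- a left inverse
  have hker : (Finsupp.linearCombination ℂ ((fun a => H.mkQ (F a t₀)) ∘ b)).ker = ⊥ :=
    LinearMap.ker_eq_bot.2 hbli
  obtain ⟨L, hL⟩ := LinearMap.exists_leftInverse_of_injective _ hker
  have hLb : ∀ c, L (H.mkQ (F (b c) t₀)) = Finsupp.single c 1 := by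
    intro c
    have h1 := LinearMap.congr_fun hL (Finsupp.single c 1)
    simpa using h1
  -- the polynomial matrix
  have hpoly : ∀ c c' : κ, ∃ p : Polynomial ℂ, ∀ t, p.eval t = L (H.mkQ (F (b c) t)) c' := by
    intro c c'
    obtain ⟨N, v, hv⟩ := hF (b c)
    refine ⟨∑ n ∈ Finset.range N, Polynomial.C (L (H.mkQ (v n)) c') * Polynomial.X ^ n, ?_⟩
    intro t
    rw [hv t, map_sum, map_sum, Finsupp.finsetSum_apply, Polynomial.eval_finsetSum]
    refine Finset.sum_congr rfl fun n _ => ?_
    rw [map_smul, map_smul, Finsupp.smul_apply, smul_eq_mul]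
    rw [Polynomial.eval_mul, Polynomial.eval_C, Polynomial.eval_pow, Polynomial.eval_X, mul_comm]
  choose P hP using hpoly
  have hdet : ∀ t, (Matrix.det (Matrix.of P)).eval t =
      (Matrix.of fun c c' => L (H.mkQ (F (b c) t)) c').det := by
    intro t
    have h1 := RingHom.map_det (Polynomial.evalRingHom t) (Matrix.of P)
    rw [Polynomial.coe_evalRingHom] at h1
    rw [h1]
    congr 1
    ext c c'
    simp [hP]
  have hne : Matrix.det (Matrix.of P) ≠ 0 := by
    intro h0
    have h1 := hdet t₀
    rw [h0, Polynomial.eval_zero] at h1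
    have h2 : (Matrix.of fun c c' => L (H.mkQ (F (b c) t₀)) c') = (1 : Matrix κ κ ℂ) := by
      ext c c'
      rw [Matrix.of_apply, hLb, Matrix.one_apply, Finsupp.single_apply]
    rw [h2, Matrix.det_one] at h1
    exact zero_ne_one h1
  refine (Polynomial.finite_setOfPred_isRoot hne).subset ?_
  intro t ht
  by_contra hroot
  have hroot' : (Matrix.of fun c c' => L (H.mkQ (F (b c) t)) c').det ≠ 0 := by
    rw [← hdet t]
    exact hroot
  have hli1 := Matrix.linearIndependent_rows_of_det_ne_zero hroot'
  have hli2 : LinearIndependent ℂ (fun c => L (H.mkQ (F (b c) t))) := by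
    refine LinearIndependent.of_comp (Finsupp.lcoeFun (R := ℂ)) ?_
    exact hli1
  have hli3 : LinearIndependent ℂ (fun c => H.mkQ (F (b c) t)) :=
    LinearIndependent.of_comp L hli2
  have h3 : Fintype.card κ ≤
      Module.finrank ℂ ↥(Submodule.span ℂ (Set.range fun a => H.mkQ (F a t))) := by
    rw [← finrank_span_eq_card hli3]
    have : FiniteDimensional ℂ ↥(Submodule.span ℂ (Set.range fun a => H.mkQ (F a t))) :=
      FiniteDimensional.span_of_finite ℂ (Set.finite_range _)
    refine Submodule.finrank_mono (Submodule.span_mono ?_)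
    rintro _ ⟨c, rfl⟩
    exact ⟨b c, rfl⟩
  have h4 : Module.finrank ℂ ↥(Submodule.span ℂ (Set.range fun a => H.mkQ (F a t₀))) =
      Fintype.card κ := by
    rw [← hbspan]
    exact finrank_span_eq_card hbli
  have h5 : Module.finrank ℂ ↥(H ⊔ Submodule.span ℂ (Set.range fun a => F a t)) <
      Module.finrank ℂ ↥(H ⊔ Submodule.span ℂ (Set.range fun a => F a t₀)) := ht
  have h6 := hfd t
  have h7 := hfd t₀
  rw [finrank_sup_eq, finrank_sup_eq, hmap, hmap, h4] at h5
  omega

end Pool.Agent.Helper69.DS
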